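import Pool.Agent.H52.WP.Ell

set_option autoImplicit false

/-!
PROJECT UNE (MP_bf82d2_ag): the conditions of a Shimura curve for covers of elliptic curves with one branch point.
-/

namespace Pool.Agent.H52.WP

open Finset Module

variable {G : Type} [Group G] [Fintype G]

/-- Galois covers of elliptic curves with group `G`, monodromy `x`, `y` along a basis of the elliptic curve and one
branch point (monodromy `[x, y]`): what a Shimura curve implies at the collisions `x` and `y`, and the inequality
of Noether and Arakelov. -/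
structure ShimE (x y : G) : Prop where
  gen : Subgroup.closure {x, y} = ⊤
  brn : x * y ≠ y * x
  wal : ∀ f ∈ HE x y, ∀ g, wallE x y f g = (orderOf x * orderOf y : ℂ) * f g
  wal' : ∀ f ∈ HE y x⁻¹, ∀ g, wallE y x⁻¹ f g = (orderOf y * orderOf x⁻¹ : ℂ) * f g
  noe : (Nat.card G : ℝ) * (1 - 1 / (orderOf (x * y * x⁻¹ * y⁻¹) : ℝ) ^ 2) <
    12 * finrank ℂ (HE x y)

/-- if `M Mᵗ = |x| |y|` on the vanishing cycles, they are the constants -/
theorem ell_const (x y : G) (hg : Subgroup.closure {x, y} = ⊤)
    (hD : ∀ f ∈ HE x y, ∀ g, wallE x y f g = (orderOf x * orderOf y : ℂ) * f g) :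
    ∀ f ∈ HE x y, ∀ g, f g = f 1 := by
  intro f hf g
  let K : Subgroup G :=
    { carrier := {g | ∀ z, f (z * g) = f z}
      mul_mem' := by
        intro g k hg hk z
        rw [← mul_assoc, hk, hg]
      one_mem' := by
        intro z
        rw [mul_one]
      inv_mem' := by
        intro g hg z
        have h2 := hg (z * g⁻¹)
        rw [inv_mul_cancel_right] at h2
        exact h2.symm }
  have hK : K = ⊤ := by
    rw [eq_top_iff, ← hg, Subgroup.closure_le]
    rintro z (rfl | rfl)
    · exact hf.1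
    · exact fun w => HE_y hD hf w
  have h1 : g ∈ K := by
    rw [hK]
    exact Subgroup.mem_top g
  have h2 := (show ∀ z, f (z * g) = f z from h1) 1
  rwa [one_mul] at h2

theorem closure_y {x y : G} (hg : Subgroup.closure {x, y} = ⊤) :
    Subgroup.closure {y, x⁻¹} = ⊤ := by
  rw [eq_top_iff, ← hg, Subgroup.closure_le]
  rintro z (rfl | rfl)
  · have h1 : z⁻¹ ∈ Subgroup.closure {y, z⁻¹} := Subgroup.subset_closure (by simp)
    have h2 := (Subgroup.closure {y, z⁻¹}).inv_mem h1
    rwa [inv_inv] at h2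
  · exact Subgroup.subset_closure (by simp)

variable {x y : G}

theorem ShimE.const_x (h : ShimE x y) : ∀ f ∈ HE x y, ∀ g, f g = f 1 :=
  ell_const x y h.gen h.wal

theorem ShimE.const_y (h : ShimE x y) : ∀ f ∈ HE y x⁻¹, ∀ g, f g = f 1 :=
  ell_const y x⁻¹ (closure_y h.gen) h.wal'

theorem ShimE.noether (h : ShimE x y) :
    (Nat.card G : ℝ) * (1 - 1 / (orderOf (x * y * x⁻¹ * y⁻¹) : ℝ) ^ 2) < 12 := by
  have h1 : (finrank ℂ (HE x y) : ℝ) ≤ 1 := by exact_mod_cast ell_dim x y h.gen h.wal
  have h2 := h.noe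
  linarith

end Pool.Agent.H52.WP
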