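import Mathlib

/-!
WP (strengthening of the wall theorem WL, note 6189), abstract part.  `A ≤ H, H'` finite subgroups
generating `G`, `K : G → ℝ` symmetric with `K * K = μ K`, right `A`-invariant, sum zero over the
cosets of `H` and `H'`, `|A| K` integral, `K 1 > 0` and `K 1 / μ ≥ 1/|A| - 1/|H| - 1/|H'|`.
If `|H'| > 2 μ |A|` then `H' = G` and `K = μ (e_A - e_H)`.
-/

set_option autoImplicit false

namespace Pool.Agent.H52.WP

open scoped Classical in
/-- the indicator function of a subgroup -/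
noncomputable def ind {G : Type*} [Group G] (B : Subgroup G) (x : G) : ℝ := if x ∈ B then 1 else 0

section

variable {G : Type*} [Group G] [Fintype G]

theorem ind_mem {B : Subgroup G} {x : G} (h : x ∈ B) : ind B x = 1 := by
  classical
  simp [ind, h]

theorem ind_not {B : Subgroup G} {x : G} (h : x ∉ B) : ind B x = 0 := by
  classical
  simp [ind, h]

theorem ind_inv (B : Subgroup G) (x : G) : ind B x⁻¹ = ind B x := by
  by_cases h : x ∈ B
  · rw [ind_mem h, ind_mem (B.inv_mem h)]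
  · rw [ind_not h, ind_not (fun h' => h (by simpa using B.inv_mem h'))]

theorem ind_mul (B : Subgroup G) {b : G} (hb : b ∈ B) (x : G) : ind B (x * b) = ind B x := by
  by_cases h : x ∈ B
  · rw [ind_mem h, ind_mem (B.mul_mem h hb)]
  · rw [ind_not h, ind_not (fun h' => h ((B.mul_mem_cancel_right hb).1 h'))]

theorem ind_mul_left (B : Subgroup G) {b : G} (hb : b ∈ B) (x : G) :
    ind B (b * x) = ind B x := by
  by_cases h : x ∈ B
  · rw [ind_mem h, ind_mem (B.mul_mem hb h)]
  · rw [ind_not h, ind_not (fun h' => h ((B.mul_mem_cancel_left hb).1 h'))]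

theorem sum_ind_one (B : Subgroup G) : ∑ x, ind B x = Nat.card B := by
  classical
  have h1 : Nat.card B = (Finset.univ.filter fun x : G => x ∈ B).card := by
    rw [Nat.card_eq_fintype_card]
    exact Fintype.card_subtype _
  rw [h1]
  unfold ind
  rw [Finset.sum_boole]

/-- convolution with an indicator on the left of a left invariant function -/
theorem cv_left (B : Subgroup G) {f : G → ℝ} (hf : ∀ b ∈ B, ∀ x, f (b * x) = f x) (g : G) :
    ∑ x, ind B x * f (x⁻¹ * g) = Nat.card B * f g := by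
  rw [← sum_ind_one B, Finset.sum_mul]
  refine Finset.sum_congr rfl fun x _ => ?_
  by_cases h : x ∈ B
  · rw [hf _ (B.inv_mem h)]
  · rw [ind_not h, zero_mul, zero_mul]

/-- convolution with an indicator on the right of a right invariant function -/
theorem cv_right (B : Subgroup G) {f : G → ℝ} (hf : ∀ b ∈ B, ∀ x, f (x * b) = f x) (g : G) :
    ∑ x, f x * ind B (x⁻¹ * g) = Nat.card B * f g := by
  rw [← sum_ind_one B, Finset.sum_mul]
  refine Fintype.sum_equiv ((Equiv.inv G).trans (Equiv.mulRight g)) _ _ fun x => ?_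
  show f x * ind B (x⁻¹ * g) = ind B (x⁻¹ * g) * f g
  by_cases h : x⁻¹ * g ∈ B
  · have h1 := hf _ h x
    rw [mul_inv_cancel_left] at h1
    rw [h1, mul_comm]
  · rw [ind_not h, mul_zero, zero_mul]

/-- convolution with an indicator on the right of a function with sum zero over cosets -/
theorem cv_right_zero (B : Subgroup G) {f : G → ℝ} (hf : ∀ g, ∑ x, f (g * x) * ind B x = 0)
    (g : G) : ∑ x, f x * ind B (x⁻¹ * g) = 0 := by
  rw [← hf g]
  refine Fintype.sum_equiv (Equiv.mulLeft g⁻¹) _ _ fun x => ?_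
  show f x * ind B (x⁻¹ * g) = f (g * (g⁻¹ * x)) * ind B (g⁻¹ * x)
  rw [mul_inv_cancel_left, ← ind_inv B (g⁻¹ * x)]
  congr 2
  group

end

section

variable {G : Type*} [Group G] [Fintype G] {A H H' : Subgroup G} {K : G → ℝ} {μ : ℝ}

/-- the function `e_A - K / μ - e_H` -/
noncomputable def pf (A H : Subgroup G) (K : G → ℝ) (μ : ℝ) (x : G) : ℝ :=
  ind A x / Nat.card A - K x / μ - ind H x / Nat.card H

theorem pf_conv (hA : A ≤ H) (hμ : 0 < μ) (hs : ∀ g, K g⁻¹ = K g)
    (hKK : ∀ g, ∑ x, K x * K (x⁻¹ * g) = μ * K g) (hKA : ∀ a ∈ A, ∀ g, K (g * a) = K g)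
    (hKH : ∀ g, ∑ x, K (g * x) * ind H x = 0) (g : G) :
    ∑ x, pf A H K μ x * pf A H K μ (x⁻¹ * g) = pf A H K μ g := by
  have he : (0 : ℝ) < Nat.card A := by exact_mod_cast Nat.card_pos
  have hh : (0 : ℝ) < Nat.card H := by exact_mod_cast Nat.card_pos
  have hKAl : ∀ a ∈ A, ∀ g, K (a * g) = K g := by
    intro a ha g
    rw [← hs (a * g), mul_inv_rev, hKA _ (A.inv_mem ha), hs]
  have c1 := cv_left A (f := ind A) (fun b hb x => ind_mul_left A hb x) g
  have c2 := cv_left A (f := K) hKAl g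
  have c3 := cv_right A (f := K) hKA g
  have c4 := cv_left A (f := ind H) (fun b hb x => ind_mul_left H (hA hb) x) g
  have c5 := cv_right A (f := ind H) (fun b hb x => ind_mul H (hA hb) x) g
  have c6 := cv_left H (f := ind H) (fun b hb x => ind_mul_left H hb x) g
  have c7 := cv_right_zero H hKH g
  have c8 : ∑ x, ind H x * K (x⁻¹ * g) = 0 := by
    have h1 := hKH g⁻¹
    rw [← h1]
    refine Finset.sum_congr rfl fun x _ => ?_
    rw [mul_comm, ← hs (x⁻¹ * g)]
    congr 2
    group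
  have c9 := hKK g
  have hx : ∀ x, pf A H K μ x * pf A H K μ (x⁻¹ * g) =
      (1 / (Nat.card A : ℝ) ^ 2) * (ind A x * ind A (x⁻¹ * g)) -
      (1 / ((Nat.card A : ℝ) * μ)) * (ind A x * K (x⁻¹ * g)) -
      (1 / ((Nat.card A : ℝ) * μ)) * (K x * ind A (x⁻¹ * g)) -
      (1 / ((Nat.card A : ℝ) * Nat.card H)) * (ind A x * ind H (x⁻¹ * g)) -
      (1 / ((Nat.card A : ℝ) * Nat.card H)) * (ind H x * ind A (x⁻¹ * g)) +
      (1 / (Nat.card H : ℝ) ^ 2) * (ind H x * ind H (x⁻¹ * g)) +
      (1 / (μ * Nat.card H)) * (K x * ind H (x⁻¹ * g)) +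
      (1 / (μ * Nat.card H)) * (ind H x * K (x⁻¹ * g)) +
      (1 / μ ^ 2) * (K x * K (x⁻¹ * g)) := by
    intro x
    unfold pf
    field_simp
    ring
  rw [Finset.sum_congr rfl fun x _ => hx x]
  simp only [Finset.sum_add_distrib, Finset.sum_sub_distrib, ← Finset.mul_sum]
  rw [c1, c2, c3, c4, c5, c6, c7, c8, c9]
  unfold pf
  field_simp
  ring

theorem pf_abs (hA : A ≤ H) (hμ : 0 < μ) (hs : ∀ g, K g⁻¹ = K g)
    (hKK : ∀ g, ∑ x, K x * K (x⁻¹ * g) = μ * K g) (hKA : ∀ a ∈ A, ∀ g, K (g * a) = K g)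
    (hKH : ∀ g, ∑ x, K (g * x) * ind H x = 0) (g : G) :
    |pf A H K μ g| ≤ pf A H K μ 1 := by
  have hinv : ∀ x, pf A H K μ x⁻¹ = pf A H K μ x := by
    intro x
    unfold pf
    rw [ind_inv, ind_inv, hs]
  have h1 : ∑ x, pf A H K μ x ^ 2 = pf A H K μ 1 := by
    rw [← pf_conv hA hμ hs hKK hKA hKH 1]
    refine Finset.sum_congr rfl fun x _ => ?_
    rw [mul_one, hinv, pow_two]
  have h2 : ∑ x, pf A H K μ (x⁻¹ * g) ^ 2 = pf A H K μ 1 := by
    rw [← h1]
    refine Fintype.sum_equiv ((Equiv.inv G).trans (Equiv.mulRight g)) _ _ fun x => rfl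
  calc |pf A H K μ g| = |∑ x, pf A H K μ x * pf A H K μ (x⁻¹ * g)| := by
        rw [pf_conv hA hμ hs hKK hKA hKH g]
    _ ≤ ∑ x, |pf A H K μ x * pf A H K μ (x⁻¹ * g)| := Finset.abs_sum_le_sum_abs _ _
    _ ≤ ∑ x, (pf A H K μ x ^ 2 / 2 + pf A H K μ (x⁻¹ * g) ^ 2 / 2) := by
        refine Finset.sum_le_sum fun x _ => ?_
        rw [abs_mul]
        nlinarith [sq_abs (pf A H K μ x), sq_abs (pf A H K μ (x⁻¹ * g)),
          sq_nonneg (|pf A H K μ x| - |pf A H K μ (x⁻¹ * g)|)]
    _ = pf A H K μ 1 := by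
        rw [Finset.sum_add_distrib, ← Finset.sum_div, ← Finset.sum_div, h1, h2]
        ring

/-- a real number `t` with `e t` an integer and `e |t| < 1` vanishes -/
theorem int_zero {e t : ℝ} (he : 0 < e) (hz : ∃ z : ℤ, e * t = z) (ht : e * |t| < 1) : t = 0 := by
  obtain ⟨z, hz⟩ := hz
  have h1 : |(z : ℝ)| < 1 := by
    rw [← hz, abs_mul, abs_of_pos he]
    exact ht
  have h2 : |z| < 1 := by exact_mod_cast h1
  have h3 : z = 0 := Int.abs_lt_one_iff.1 h2
  rw [h3] at hz
  have h4 : e * t = 0 := by simpa using hz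
  exact (mul_eq_zero.1 h4).resolve_left he.ne'

theorem dichotomy (hA : A ≤ H) (hA' : A ≤ H') (hg : H ⊔ H' = ⊤) (hμ : 0 < μ)
    (hs : ∀ g, K g⁻¹ = K g) (hKK : ∀ g, ∑ x, K x * K (x⁻¹ * g) = μ * K g)
    (hKA : ∀ a ∈ A, ∀ g, K (g * a) = K g) (hKH : ∀ g, ∑ x, K (g * x) * ind H x = 0)
    (hKH' : ∀ g, ∑ x, K (g * x) * ind H' x = 0)
    (hz : ∀ g, ∃ z : ℤ, (Nat.card A : ℝ) * K g = z) (h1 : 0 < K 1)
    (hd : 1 / (Nat.card A : ℝ) - 1 / Nat.card H - 1 / Nat.card H' ≤ K 1 / μ)
    (hb : 2 * μ * Nat.card A < Nat.card H') :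
    H' = ⊤ ∧ ∀ g, K g = μ * (ind A g / Nat.card A - ind H g / Nat.card H) := by
  have he : (0 : ℝ) < Nat.card A := by exact_mod_cast Nat.card_pos
  have hh : (0 : ℝ) < Nat.card H := by exact_mod_cast Nat.card_pos
  have hh' : (0 : ℝ) < Nat.card H' := by exact_mod_cast Nat.card_pos
  have hp1 : pf A H K μ 1 ≤ 1 / Nat.card H' := by
    unfold pf
    rw [ind_mem A.one_mem, ind_mem H.one_mem]
    linarith
  have hpa : ∀ g, |pf A H K μ g| ≤ 1 / Nat.card H' := fun g =>
    (pf_abs hA hμ hs hKK hKA hKH g).trans hp1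
  have hem : (Nat.card A : ℝ) * μ * (1 / Nat.card H') < 1 / 2 := by
    rw [mul_one_div, div_lt_iff₀ hh']
    linarith
  -- `K` vanishes off `H`
  have hK0 : ∀ g, g ∉ H → K g = 0 := by
    intro g hgH
    refine int_zero he (hz g) ?_
    have h2 := hpa g
    have h3 : pf A H K μ g = -(K g / μ) := by
      unfold pf
      rw [ind_not hgH, ind_not (fun h => hgH (hA h))]
      ring
    rw [h3, abs_neg, abs_div, abs_of_pos hμ, div_le_iff₀ hμ] at h2
    have h4 := mul_le_mul_of_nonneg_left h2 he.le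
    nlinarith
  -- `K` is constant on `A`
  have hKa : ∀ g ∈ A, K g = K 1 := by
    intro g hgA
    have := hKA g hgA 1
    rwa [one_mul] at this
  -- `K` is constant on `H` minus `A`
  have hKc : ∀ g ∈ H, g ∉ A → ∀ g' ∈ H, g' ∉ A → K g = K g' := by
    intro g hgH hgA g' hgH' hgA'
    have h3 : K g - K g' = 0 := by
      refine int_zero he ?_ ?_
      · obtain ⟨z, hz1⟩ := hz g
        obtain ⟨z', hz2⟩ := hz g'
        refine ⟨z - z', ?_⟩
        rw [mul_sub, hz1, hz2]
        push_cast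
        ring
      · have e1 : pf A H K μ g' - pf A H K μ g = (K g - K g') / μ := by
          unfold pf
          rw [ind_not hgA, ind_not hgA', ind_mem hgH, ind_mem hgH']
          ring
        have e2 : |pf A H K μ g' - pf A H K μ g| ≤ 1 / Nat.card H' + 1 / Nat.card H' :=
          (abs_sub _ _).trans (add_le_add (hpa g') (hpa g))
        rw [e1, abs_div, abs_of_pos hμ, div_le_iff₀ hμ] at e2
        have h4 := mul_le_mul_of_nonneg_left e2 he.le
        nlinarith
    linarith
  -- sums over `H`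
  have hS1 : ∑ x, K x = 0 := by
    rw [← hKH 1]
    refine Finset.sum_congr rfl fun x _ => ?_
    rw [one_mul]
    by_cases hx : x ∈ H
    · rw [ind_mem hx, mul_one]
    · rw [hK0 x hx, zero_mul]
  have hS2 : ∑ x, K x ^ 2 = μ * K 1 := by
    rw [← hKK 1]
    refine Finset.sum_congr rfl fun x _ => ?_
    rw [mul_one, hs, pow_two]
  have hK : ∃ k : ℝ, ∀ x, K x = ind A x * (K 1 - k) + ind H x * k := by
    by_cases hHA : ∃ g0 ∈ H, g0 ∉ A
    · obtain ⟨g0, h2, h3⟩ := hHA
      refine ⟨K g0, fun x => ?_⟩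
      by_cases hxA : x ∈ A
      · rw [hKa x hxA, ind_mem hxA, ind_mem (hA hxA)]
        ring
      · by_cases hxH : x ∈ H
        · rw [ind_not hxA, ind_mem hxH, hKc x hxH hxA g0 h2 h3]
          ring
        · rw [hK0 x hxH, ind_not hxA, ind_not hxH]
          ring
    · push Not at hHA
      refine ⟨0, fun x => ?_⟩
      by_cases hxA : x ∈ A
      · rw [hKa x hxA, ind_mem hxA]
        ring
      · rw [hK0 x (fun h => hxA (hHA x h)), ind_not hxA]
        ring
  obtain ⟨k, hk⟩ := hK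
  have hii : ∀ x, ind A x * ind H x = ind A x := by
    intro x
    by_cases hxA : x ∈ A
    · rw [ind_mem hxA, ind_mem (hA hxA), mul_one]
    · rw [ind_not hxA, zero_mul]
  have hsqA : ∀ x, ind A x ^ 2 = ind A x := by
    intro x
    by_cases hxA : x ∈ A
    · rw [ind_mem hxA]; norm_num
    · rw [ind_not hxA]; norm_num
  have hsqH : ∀ x, ind H x ^ 2 = ind H x := by
    intro x
    by_cases hxA : x ∈ H
    · rw [ind_mem hxA]; norm_num
    · rw [ind_not hxA]; norm_num
  have hE1 : Nat.card A * (K 1 - k) + Nat.card H * k = 0 := by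
    rw [← hS1, Finset.sum_congr rfl fun x _ => hk x, Finset.sum_add_distrib, ← Finset.sum_mul,
      ← Finset.sum_mul, sum_ind_one, sum_ind_one]
  have hE2 : (Nat.card A : ℝ) * ((K 1 - k) ^ 2 + 2 * (K 1 - k) * k) + Nat.card H * k ^ 2 =
      μ * K 1 := by
    rw [← hS2, ← sum_ind_one A, ← sum_ind_one H, Finset.sum_mul, Finset.sum_mul,
      ← Finset.sum_add_distrib]
    refine Finset.sum_congr rfl fun x _ => ?_
    have a1 := hii x
    have a2 := hsqA x
    have a3 := hsqH x
    have a4 : K x ^ 2 = (ind A x * (K 1 - k) + ind H x * k) ^ 2 := by rw [hk x]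
    rw [a4]
    linear_combination (-(K 1 - k) ^ 2) * a2 - k ^ 2 * a3 - 2 * (K 1 - k) * k * a1
  -- solve: `k = - μ / |H|`, `K 1 - k = μ / |A|`
  have hk1 : k = -(μ / Nat.card H) := by
    have e1 : (Nat.card A : ℝ) * (K 1 - k) = -(Nat.card H * k) := by linarith
    have e2 : (Nat.card A : ℝ) * ((K 1 - k) ^ 2 + 2 * (K 1 - k) * k) =
        -(Nat.card H * k) * (K 1 + k) := by
      rw [← e1]
      ring
    have e3 : -(Nat.card H * k) * K 1 = μ * K 1 := by
      rw [e2] at hE2
      linear_combination hE2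
    have e4 : -(Nat.card H * k) = μ := mul_right_cancel₀ h1.ne' e3
    field_simp
    linarith
  have hk2 : K 1 - k = μ / Nat.card A := by
    have e1 : (Nat.card A : ℝ) * (K 1 - k) = -(Nat.card H * k) := by linarith
    have e2 : -((Nat.card H : ℝ) * k) = μ := by
      rw [hk1]
      field_simp
    rw [eq_div_iff he.ne']
    linarith
  have hKf : ∀ g, K g = μ * (ind A g / Nat.card A - ind H g / Nat.card H) := by
    intro g
    rw [hk g, hk2, hk1]
    ring
  refine ⟨?_, hKf⟩
  -- `H ≤ H'`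
  have h5 := hKH' 1
  have h6 : ∑ x, (ind A x * ind H' x) = Nat.card A := by
    rw [← sum_ind_one A]
    refine Finset.sum_congr rfl fun x _ => ?_
    by_cases hxA : x ∈ A
    · rw [ind_mem hxA, ind_mem (hA' hxA), mul_one]
    · rw [ind_not hxA, zero_mul]
  have h7 : ∑ x, (ind H x * ind H' x) = Nat.card H := by
    have e1 : ∑ x, K (1 * x) * ind H' x = μ * ((∑ x, (ind A x * ind H' x)) / Nat.card A -
        (∑ x, (ind H x * ind H' x)) / Nat.card H) := by
      rw [Finset.sum_div, Finset.sum_div, ← Finset.sum_sub_distrib, Finset.mul_sum]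
      refine Finset.sum_congr rfl fun x _ => ?_
      rw [one_mul, hKf x]
      ring
    rw [e1, h6, div_self he.ne'] at h5
    have h8 := (mul_eq_zero.1 h5).resolve_left hμ.ne'
    have h9 : (∑ x, (ind H x * ind H' x)) / Nat.card H = 1 := by linarith
    rwa [div_eq_one_iff_eq hh.ne'] at h9
  have h8 : H ≤ H' := by
    by_contra hcon
    obtain ⟨y, hy, hy'⟩ := SetLike.not_le_iff_exists.1 hcon
    have h9 : ∑ x, (ind H x * ind H' x) < ∑ x, ind H x := by
      refine Finset.sum_lt_sum (fun x _ => ?_) ⟨y, Finset.mem_univ _, ?_⟩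
      · by_cases hx : x ∈ H'
        · rw [ind_mem hx, mul_one]
        · rw [ind_not hx, mul_zero]
          unfold ind
          split_ifs <;> norm_num
      · rw [ind_mem hy, ind_not hy']
        norm_num
    rw [h7, sum_ind_one] at h9
    exact lt_irrefl _ h9
  rw [← hg, sup_eq_right.2 h8]

/-- in the second case `|H| ≤ |A| + |A|^2 K(1)` -/
theorem card_le (hA : A ≤ H) (hμ : 0 < μ) (h1 : 0 < K 1)
    (hz : ∀ g, ∃ z : ℤ, (Nat.card A : ℝ) * K g = z)
    (hKf : ∀ g, K g = μ * (ind A g / Nat.card A - ind H g / Nat.card H)) :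
    (Nat.card H : ℝ) ≤ Nat.card A + (Nat.card A : ℝ) ^ 2 * K 1 := by
  have he : (0 : ℝ) < Nat.card A := by exact_mod_cast Nat.card_pos
  have hh : (0 : ℝ) < Nat.card H := by exact_mod_cast Nat.card_pos
  have h2 := hKf 1
  rw [ind_mem A.one_mem, ind_mem H.one_mem] at h2
  by_cases hHA : ∃ g0 ∈ H, g0 ∉ A
  · obtain ⟨g0, hg0, hg0'⟩ := hHA
    have h3 := hKf g0
    rw [ind_not hg0', ind_mem hg0] at h3
    by_contra hcon
    push Not at hcon
    have h5 : μ * (Nat.card H - Nat.card A) = K 1 * (Nat.card A * Nat.card H) := by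
      rw [h2]
      field_simp
    have h4 : K g0 = 0 := by
      refine int_zero he (hz g0) ?_
      have h6 : |K g0| = μ / Nat.card H := by
        rw [h3, zero_div, zero_sub, mul_neg, abs_neg, mul_one_div, abs_of_pos (by positivity)]
      rw [h6, ← mul_div_assoc, div_lt_one hh]
      have h7 : (0 : ℝ) < Nat.card H - Nat.card A := by nlinarith [sq_nonneg (Nat.card A : ℝ), mul_pos (pow_pos he 2) h1]
      have h8 : (Nat.card A : ℝ) * μ * (Nat.card H - Nat.card A) <
          Nat.card H * (Nat.card H - Nat.card A) := by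
        have : (Nat.card A : ℝ) * μ * (Nat.card H - Nat.card A) =
            (Nat.card A : ℝ) ^ 2 * K 1 * Nat.card H := by
          linear_combination (Nat.card A : ℝ) * h5
        rw [this]
        nlinarith
      exact lt_of_mul_lt_mul_right h8 h7.le
    rw [h4] at h3
    have h9 : 0 < μ * (1 / (Nat.card H : ℝ)) := by positivity
    rw [zero_div, zero_sub, mul_neg] at h3
    linarith
  · push Not at hHA
    have h3 : H = A := le_antisymm (fun x hx => hHA x hx) hA
    rw [h3] at h2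
    rw [h2] at h1
    simp at h1

end

end Pool.Agent.H52.WP
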