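import Pool.Agent.H78.UN.Star

set_option autoImplicit false

/-!
PROJECT UNE (MP_bf82d2_ag): one-parameter families of Galois covers of elliptic curves with one branch point.
`G = ⟨x, y⟩`; `HE x y`: the vanishing cycles of the collision `x`; `wallE x y = M Mᵗ`.
-/

namespace Pool.Agent.H52.WP

open Finset Module
open Pool.Agent.H78.WL (sm sm_apply sm_const Adj_sm)
open Pool.Agent.H78.UN (St_N St_N_nonneg St_N_zero)

variable {G : Type} [Group G] [Fintype G]

open Classical in
/-- the vanishing cycles of the loop `x`: functions on `G / ⟨x⟩` with zero boundary at the cosets of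
`H = ⟨x, y x y⁻¹⟩` -/
noncomputable def HE (x y : G) : Submodule ℂ (G → ℂ) where
  carrier := {f | (∀ g, f (g * x) = f g) ∧
    ∀ g, ∑ h : Subgroup.closure {x, y * x * y⁻¹}, f (g * h) =
      ∑ h : Subgroup.closure {x, y * x * y⁻¹}, f (g * h * y)}
  add_mem' := by
    intro f k hf hk
    refine ⟨fun g => ?_, fun g => ?_⟩
    · rw [Pi.add_apply, Pi.add_apply, hf.1 g, hk.1 g]
    · simp only [Pi.add_apply]
      rw [sum_add_distrib, sum_add_distrib, hf.2 g, hk.2 g]
  zero_mem' := by
    refine ⟨fun g => rfl, fun g => ?_⟩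
    simp only [Pi.zero_apply]
  smul_mem' := by
    intro c f hf
    refine ⟨fun g => ?_, fun g => ?_⟩
    · rw [Pi.smul_apply, Pi.smul_apply, hf.1 g]
    · simp only [Pi.smul_apply]
      rw [← smul_sum, ← smul_sum, hf.2 g]

open Classical in
/-- `M Mᵗ = E_x E_y`, `M` the matrix of the intersection numbers of the lifts of `x` and `y` -/
noncomputable def wallE (x y : G) (f : G → ℂ) (g : G) : ℂ :=
  ∑ h : Subgroup.zpowers x, ∑ k : Subgroup.zpowers y, f (g * h * k)

theorem HE_inv {x y : G} {f : G → ℂ} (hf : f ∈ HE x y) (g : G) :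
    ∀ h ∈ Subgroup.zpowers x, f (g * h) = f g := by
  have h1 : Subgroup.zpowers x ≤
      { carrier := {g | ∀ y, f (y * g) = f y}
        mul_mem' := by
          intro g k hg hk y
          rw [← mul_assoc, hk, hg]
        one_mem' := by
          intro y
          rw [mul_one]
        inv_mem' := by
          intro g hg y
          have h2 := hg (y * g⁻¹)
          rw [inv_mul_cancel_right] at h2
          exact h2.symm } := by
    rw [Subgroup.zpowers_le]
    exact hf.1
  intro h hh
  exact h1 hh g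

/-- the functions of `HE` are invariant under `y` -/
theorem HE_y {x y : G} (hD : ∀ f ∈ HE x y, ∀ g, wallE x y f g =
      (orderOf x * orderOf y : ℂ) * f g) {f : G → ℂ} (hf : f ∈ HE x y) (g : G) :
    f (g * y) = f g := by
  classical
  have hA : (0 : ℝ) < Nat.card (Subgroup.zpowers x) := by exact_mod_cast Nat.card_pos
  have h1 : ∀ g, wallE x y f g = sm (Subgroup.zpowers x) (sm (Subgroup.zpowers y) f) g := by
    intro g
    rw [sm_apply]
    unfold wallE
    refine sum_congr rfl fun h _ => ?_
    rw [sm_apply]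
  have h3 : ∀ g, sm (Subgroup.zpowers x) (fun g => star (f g)) g =
      Nat.card (Subgroup.zpowers x) * star (f g) := by
    intro g
    refine sm_const _ (fun g => star (f g)) (fun z h hh => ?_) g
    show star (f (z * h)) = star (f z)
    rw [HE_inv hf z h hh]
  have h4 : ∑ g, wallE x y f g * star (f g) = Nat.card (Subgroup.zpowers x) *
      ∑ g, sm (Subgroup.zpowers y) f g * star (f g) := by
    rw [sum_congr rfl fun g _ => by rw [h1 g], Adj_sm (Subgroup.zpowers x)
      (sm (Subgroup.zpowers y) f) (fun g => star (f g)),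
      sum_congr rfl fun g _ => by rw [h3 g], mul_sum]
    refine sum_congr rfl fun g _ => ?_
    ring
  have h5 : (∑ g, wallE x y f g * star (f g)).re = Nat.card (Subgroup.zpowers x) *
      Nat.card (Subgroup.zpowers y) * ∑ g, ‖f g‖ ^ 2 := by
    have h6 : ∀ g, wallE x y f g * star (f g) = ((Nat.card (Subgroup.zpowers x) *
        Nat.card (Subgroup.zpowers y) * ‖f g‖ ^ 2 : ℝ) : ℂ) := by
      intro g
      rw [hD f hf g, mul_assoc, Complex.star_def, Complex.mul_conj, Complex.normSq_eq_norm_sq,
        Nat.card_zpowers, Nat.card_zpowers]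
      push_cast
      ring
    rw [sum_congr rfl fun g _ => h6 g, ← Complex.ofReal_sum, Complex.ofReal_re, mul_sum]
  have h7 : (∑ g, wallE x y f g * star (f g)).re = Nat.card (Subgroup.zpowers x) *
      (∑ g, sm (Subgroup.zpowers y) f g * star (f g)).re := by
    rw [h4, ← Complex.ofReal_natCast, Complex.re_ofReal_mul]
  rw [h5, sm_form (Subgroup.zpowers y) f, mul_assoc] at h7
  have h8 := mul_left_cancel₀ hA.ne' h7
  have h9 : ∑ x, ∑ h : Subgroup.zpowers y, ‖f (x * h) - f x‖ ^ 2 = 0 := by linarith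
  have h10 := (sum_eq_zero_iff_of_nonneg fun x _ => sum_nonneg fun (h : Subgroup.zpowers y) _ =>
    sq_nonneg ‖f (x * h) - f x‖).1 h9 g (mem_univ _)
  have h11 := (sum_eq_zero_iff_of_nonneg fun (h : Subgroup.zpowers y) _ =>
    sq_nonneg ‖f (g * h) - f g‖).1 h10 ⟨y, Subgroup.mem_zpowers y⟩ (mem_univ _)
  rw [sq_eq_zero_iff, norm_eq_zero] at h11
  exact sub_eq_zero.1 h11

/-- One branch point on an elliptic curve: if `M Mᵗ = |x| |y|` on the vanishing cycles, then
`dim HE ≤ 1`. -/
theorem ell_dim (x y : G) (hg : Subgroup.closure {x, y} = ⊤)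
    (hD : ∀ f ∈ HE x y, ∀ g, wallE x y f g = (orderOf x * orderOf y : ℂ) * f g) :
    finrank ℂ (HE x y) ≤ 1 := by
  classical
  have hconst : ∀ f ∈ HE x y, ∀ g, f g = f 1 := by
    intro f hf g
    let K : Subgroup G :=
      { carrier := {g | ∀ z, f (z * g) = f z}
        mul_mem' := by
          intro g k hg hk z
          rw [← mul_assoc, hk, hg]
        one_mem' := by
          intro z
          rw [mul_one]
        inv_mem' := by
          intro g hg z
          have h2 := hg (z * g⁻¹)
          rw [inv_mul_cancel_right] at h2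
          exact h2.symm }
    have hK : K = ⊤ := by
      rw [eq_top_iff, ← hg, Subgroup.closure_le]
      rintro z (rfl | rfl)
      · exact hf.1
      · exact fun w => HE_y hD hf w
    have h1 : g ∈ K := by
      rw [hK]
      exact Subgroup.mem_top g
    have h2 := (show ∀ z, f (z * g) = f z from h1) 1
    rwa [one_mul] at h2
  by_cases hR : ∃ f : HE x y, f ≠ 0
  · obtain ⟨f, hf⟩ := hR
    have hf1 : (f : G → ℂ) 1 ≠ 0 := by
      intro h2
      apply hf
      apply Subtype.ext
      funext g
      rw [hconst f f.2 g, h2]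
      rfl
    refine finrank_le_one f fun k => ⟨(k : G → ℂ) 1 / (f : G → ℂ) 1, ?_⟩
    apply Subtype.ext
    funext g
    show (k : G → ℂ) 1 / (f : G → ℂ) 1 * (f : G → ℂ) g = (k : G → ℂ) g
    rw [hconst f f.2 g, hconst k k.2 g, div_mul_cancel₀ _ hf1]
  · push Not at hR
    refine finrank_le_one 0 fun k => ⟨0, ?_⟩
    rw [hR k, smul_zero]

/-- One branch point on an elliptic curve: the conditions of a Shimura curve imply `|G| ≤ 15`. -/
theorem ell_main (x y : G) (hg : Subgroup.closure {x, y} = ⊤) (hxy : x * y ≠ y * x)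
    (hD : ∀ f ∈ HE x y, ∀ g, wallE x y f g = (orderOf x * orderOf y : ℂ) * f g)
    (hN : (Nat.card G : ℝ) * (1 - 1 / (orderOf (x * y * x⁻¹ * y⁻¹) : ℝ) ^ 2) <
      12 * finrank ℂ (HE x y)) : Nat.card G ≤ 15 := by
  have h1 : (finrank ℂ (HE x y) : ℝ) ≤ 1 := by exact_mod_cast ell_dim x y hg hD
  have h2 : 2 ≤ orderOf (x * y * x⁻¹ * y⁻¹) := by
    have h3 : orderOf (x * y * x⁻¹ * y⁻¹) ≠ 1 := by
      rw [Ne, orderOf_eq_one_iff]
      intro h4
      apply hxy
      rw [mul_inv_eq_one, mul_inv_eq_iff_eq_mul] at h4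
      exact h4
    have h4 := orderOf_pos (x * y * x⁻¹ * y⁻¹)
    omega
  have h3 : (2 : ℝ) ≤ orderOf (x * y * x⁻¹ * y⁻¹) := by exact_mod_cast h2
  have h4 : 1 / (orderOf (x * y * x⁻¹ * y⁻¹) : ℝ) ^ 2 ≤ 1 / 4 := by
    apply one_div_le_one_div_of_le (by norm_num)
    nlinarith
  have h5 : (0 : ℝ) ≤ Nat.card G := Nat.cast_nonneg _
  have h6 : (Nat.card G : ℝ) < 16 := by nlinarith
  have h7 : Nat.card G < 16 := by exact_mod_cast h6
  omega

end Pool.Agent.H52.WP
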