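import Pool.Agent.H78.WL.Op

/-!
WP (MP_bf82d2_ag, walls): the case of a uniformising period map.  If the wall operator is
`4 |a| |b|` on `RC a H H'`, then `c` acts as `-1` and `b` trivially on `RC a H H'`.
-/

set_option autoImplicit false

namespace Pool.Agent.H52.WP

open Finset Module
open Pool.Agent.H52.VC (RC mem_RC dim_RC)
open Pool.Agent.H78.WL

variable {G : Type} [Group G] [Fintype G]

theorem RC_inv' (a : G) (H H' : Subgroup G) (f : G → ℂ) (hf : f ∈ RC a H H') (x : G) :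
    ∀ g ∈ Subgroup.zpowers a, f (x * g) = f x := by
  have h1 : Subgroup.zpowers a ≤
      { carrier := {g | ∀ y, f (y * g) = f y}
        mul_mem' := by
          intro g k hg hk y
          rw [← mul_assoc, hk, hg]
        one_mem' := by
          intro y
          rw [mul_one]
        inv_mem' := by
          intro g hg y
          have h2 := hg (y * g⁻¹)
          rw [inv_mul_cancel_right] at h2
          exact h2.symm } := by
    rw [Subgroup.zpowers_le]
    exact hf.1
  intro g hg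
  exact h1 hg x

/-- translation invariance of sums -/
theorem sum_tr (c : G) (f : G → ℝ) : ∑ x, f (x * c) = ∑ x, f x :=
  Fintype.sum_equiv (Equiv.mulRight c) _ _ fun _ => rfl

theorem star_id (z w : ℂ) : (z * star w).re = (‖z‖ ^ 2 + ‖w‖ ^ 2 - ‖z - w‖ ^ 2) / 2 := by
  rw [← Complex.normSq_eq_norm_sq, ← Complex.normSq_eq_norm_sq, ← Complex.normSq_eq_norm_sq,
    Complex.normSq_apply, Complex.normSq_apply, Complex.normSq_apply]
  simp only [Complex.mul_re, Complex.star_def, Complex.conj_re, Complex.conj_im, Complex.sub_re,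
    Complex.sub_im]
  ring

/-- the quadratic form of a coset sum -/
theorem sm_form (B : Subgroup G) (u : G → ℂ) :
    (∑ x, sm B u x * star (u x)).re = Nat.card B * ∑ x, ‖u x‖ ^ 2 -
      (open Classical in ∑ x, ∑ h : B, ‖u (x * h) - u x‖ ^ 2) / 2 := by
  classical
  have h1 : ∑ x, sm B u x * star (u x) = ∑ x, ∑ h : B, u (x * h) * star (u x) := by
    refine sum_congr rfl fun x _ => ?_
    rw [sm_apply, sum_mul]
  have h2 : ∑ x, ∑ h : B, ‖u (x * h)‖ ^ 2 = Nat.card B * ∑ x, ‖u x‖ ^ 2 := by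
    rw [sum_comm, sum_congr rfl fun (h : B) _ => sum_tr (h : G) (fun x => ‖u x‖ ^ 2), sum_const,
      card_univ, nsmul_eq_mul, ← Nat.card_eq_fintype_card]
  have h3 : ∑ x, ∑ _h : B, ‖u x‖ ^ 2 = Nat.card B * ∑ x, ‖u x‖ ^ 2 := by
    rw [mul_sum]
    refine sum_congr rfl fun x _ => ?_
    rw [sum_const, card_univ, nsmul_eq_mul, ← Nat.card_eq_fintype_card]
  rw [h1, Complex.re_sum]
  simp only [Complex.re_sum, star_id]
  simp only [← sum_div, sum_sub_distrib, sum_add_distrib]
  rw [h2, h3]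
  ring

/-- the quadratic form of the wall operator -/
theorem wall_form (a b c : G) (f : G → ℂ)
    (hf : ∀ x, ∀ g ∈ Subgroup.zpowers a, f (x * g) = f x) :
    ∑ x, wall a b c f x * star (f x) = Nat.card (Subgroup.zpowers a) *
      ∑ x, sm (Subgroup.zpowers b) (fun y => f y - f (y * c)) x * star (f x - f (x * c)) := by
  classical
  set u : G → ℂ := fun y => f y - f (y * c) with hu
  have h1 : ∀ x, wall a b c f x = sm (Subgroup.zpowers a)
      (((1 : (G → ℂ) →ₗ[ℂ] (G → ℂ)) - tr c⁻¹) (sm (Subgroup.zpowers b) u)) x := by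
    intro x
    rw [sm_apply]
    unfold wall
    refine sum_congr rfl fun h _ => ?_
    show _ = sm (Subgroup.zpowers b) u (x * h) - sm (Subgroup.zpowers b) u (x * h * c⁻¹)
    rw [sm_apply, sm_apply, ← sum_sub_distrib]
    refine sum_congr rfl fun k _ => ?_
    rw [hu]
    ring
  have h2 := Adj_sm (Subgroup.zpowers a)
    (((1 : (G → ℂ) →ₗ[ℂ] (G → ℂ)) - tr c⁻¹) (sm (Subgroup.zpowers b) u)) (fun x => star (f x))
  have h3 : ∀ x, sm (Subgroup.zpowers a) (fun x => star (f x)) x =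
      Nat.card (Subgroup.zpowers a) * star (f x) := by
    intro x
    refine sm_const _ (fun x => star (f x)) (fun y g hg => ?_) x
    show star (f (y * g)) = star (f y)
    rw [hf y g hg]
  have h4 := Adj_sub (Adj_one (G := G)) (Adj_tr (G := G) c⁻¹) (sm (Subgroup.zpowers b) u)
    (fun x => star (f x))
  rw [inv_inv] at h4
  rw [sum_congr rfl fun x _ => by rw [h1 x], h2, sum_congr rfl fun x _ => by rw [h3 x], mul_sum]
  have h5 : ∀ x, ((1 : (G → ℂ) →ₗ[ℂ] (G → ℂ)) - tr c) (fun x => star (f x)) x =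
      star (f x - f (x * c)) := by
    intro x
    show star (f x) - star (f (x * c)) = _
    rw [star_sub]
  have h6 := h4.trans (sum_congr rfl fun x _ => by rw [h5 x])
  rw [← mul_sum, ← h6, mul_sum]
  refine sum_congr rfl fun x _ => ?_
  ring

/-- If the wall operator is `4 |a| |b|` on `RC`, then `c` acts as `-1` and `b` trivially. -/
theorem etale (a b c : G) (H H' : Subgroup G)
    (hμ : ∀ f ∈ RC a H H', ∀ x, wall a b c f x = (4 * orderOf a * orderOf b : ℂ) * f x)
    (f : G → ℂ) (hf : f ∈ RC a H H') :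
    (∀ x, f (x * c) = -f x) ∧ ∀ x, ∀ k ∈ Subgroup.zpowers b, f (x * k) = f x := by
  classical
  have hA : (0 : ℝ) < Nat.card (Subgroup.zpowers a) := by exact_mod_cast Nat.card_pos
  have hB : (0 : ℝ) < Nat.card (Subgroup.zpowers b) := by exact_mod_cast Nat.card_pos
  have h1 := wall_form a b c f (RC_inv' a H H' f hf)
  have h2 : (∑ x, wall a b c f x * star (f x)).re = 4 * Nat.card (Subgroup.zpowers a) *
      Nat.card (Subgroup.zpowers b) * ∑ x, ‖f x‖ ^ 2 := by
    have h3 : ∀ x, wall a b c f x * star (f x) = ((4 * Nat.card (Subgroup.zpowers a) *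
        Nat.card (Subgroup.zpowers b) * ‖f x‖ ^ 2 : ℝ) : ℂ) := by
      intro x
      rw [hμ f hf x, mul_assoc, Complex.star_def, Complex.mul_conj, Complex.normSq_eq_norm_sq,
        Nat.card_zpowers, Nat.card_zpowers]
      push_cast
      ring
    rw [sum_congr rfl fun x _ => h3 x, ← Complex.ofReal_sum, Complex.ofReal_re, mul_sum]
  have h4 := sm_form (Subgroup.zpowers b) (fun y => f y - f (y * c))
  have h5 : (∑ x, wall a b c f x * star (f x)).re = Nat.card (Subgroup.zpowers a) *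
      (∑ x, sm (Subgroup.zpowers b) (fun y => f y - f (y * c)) x * star (f x - f (x * c))).re := by
    rw [h1, ← Complex.ofReal_natCast, Complex.re_ofReal_mul]
  have h6 : ∑ x, ‖f x - f (x * c)‖ ^ 2 = 4 * ∑ x, ‖f x‖ ^ 2 - ∑ x, ‖f x + f (x * c)‖ ^ 2 := by
    have h7 : ∀ x, ‖f x - f (x * c)‖ ^ 2 = 2 * ‖f x‖ ^ 2 + 2 * ‖f (x * c)‖ ^ 2 -
        ‖f x + f (x * c)‖ ^ 2 := by
      intro x
      have := parallelogram_law_with_norm ℝ (f x) (f (x * c))
      nlinarith
    have h8 := sum_tr c (fun x => ‖f x‖ ^ 2)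
    rw [sum_congr rfl fun x _ => h7 x, sum_sub_distrib, sum_add_distrib, ← mul_sum, ← mul_sum, h8]
    ring
  rw [h2, h4, h6] at h5
  have h9 : (0 : ℝ) ≤ ∑ x, ‖f x + f (x * c)‖ ^ 2 := sum_nonneg fun x _ => sq_nonneg _
  have h10 : (0 : ℝ) ≤ ∑ x, ∑ h : Subgroup.zpowers b,
      ‖(f (x * h) - f (x * h * c)) - (f x - f (x * c))‖ ^ 2 :=
    sum_nonneg fun x _ => sum_nonneg fun h _ => sq_nonneg _
  have h11 : Nat.card (Subgroup.zpowers b) * (∑ x, ‖f x + f (x * c)‖ ^ 2) +
      (∑ x, ∑ h : Subgroup.zpowers b,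
        ‖(f (x * h) - f (x * h * c)) - (f x - f (x * c))‖ ^ 2) / 2 = 0 := by
    have h12 := mul_left_cancel₀ hA.ne' (b := 4 * Nat.card (Subgroup.zpowers b) * ∑ x, ‖f x‖ ^ 2)
      (c := Nat.card (Subgroup.zpowers b) * (4 * ∑ x, ‖f x‖ ^ 2 - ∑ x, ‖f x + f (x * c)‖ ^ 2) -
        (∑ x, ∑ h : Subgroup.zpowers b,
          ‖(f (x * h) - f (x * h * c)) - (f x - f (x * c))‖ ^ 2) / 2) (by linarith)
    linarith
  have h13 : ∑ x, ‖f x + f (x * c)‖ ^ 2 = 0 := by
    have := mul_nonneg hB.le h9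
    have h14 : Nat.card (Subgroup.zpowers b) * (∑ x, ‖f x + f (x * c)‖ ^ 2) = 0 := by linarith
    exact (mul_eq_zero.1 h14).resolve_left hB.ne'
  have h15 : ∑ x, ∑ h : Subgroup.zpowers b,
      ‖(f (x * h) - f (x * h * c)) - (f x - f (x * c))‖ ^ 2 = 0 := by
    rw [h13, mul_zero, zero_add] at h11
    linarith
  have h16 : ∀ x, f (x * c) = -f x := by
    intro x
    have h17 := (sum_eq_zero_iff_of_nonneg fun x _ => sq_nonneg ‖f x + f (x * c)‖).1 h13 x
      (mem_univ _)
    have h18 : f x + f (x * c) = 0 := by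
      rw [sq_eq_zero_iff, norm_eq_zero] at h17
      exact h17
    exact (neg_eq_of_add_eq_zero_right h18).symm
  refine ⟨h16, fun x k hk => ?_⟩
  have h17 := (sum_eq_zero_iff_of_nonneg fun x _ => sum_nonneg fun h _ =>
    sq_nonneg ‖(f (x * (h : Subgroup.zpowers b)) - f (x * h * c)) - (f x - f (x * c))‖).1 h15 x
    (mem_univ _)
  have h18 := (sum_eq_zero_iff_of_nonneg fun h _ =>
    sq_nonneg ‖(f (x * (h : Subgroup.zpowers b)) - f (x * h * c)) - (f x - f (x * c))‖).1 h17
    ⟨k, hk⟩ (mem_univ _)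
  rw [sq_eq_zero_iff, norm_eq_zero] at h18
  have h19 : f (x * k) - f (x * k * c) - (f x - f (x * c)) = 0 := h18
  rw [h16, h16] at h19
  linear_combination (1 / 2) * h19

/-- group form: all `s_i` act as `-1` on `RC`, and `dim RC ≤ 1` -/
theorem etale_main (s₁ s₂ s₃ s₄ : G) (hp : s₁ * s₂ * s₃ * s₄ = 1)
    (hg : Subgroup.closure {s₁, s₂, s₃, s₄} = ⊤) (H H' : Subgroup G)
    (hμ : ∀ f ∈ RC (s₁ * s₂) H H', ∀ x, wall (s₁ * s₂) (s₂ * s₃) s₂ f x =
      (4 * orderOf (s₁ * s₂) * orderOf (s₂ * s₃) : ℂ) * f x) :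
    (∀ f ∈ RC (s₁ * s₂) H H', ∀ x, f (x * s₁) = -f x ∧ f (x * s₂) = -f x ∧ f (x * s₃) = -f x ∧
      f (x * s₄) = -f x) ∧ finrank ℂ (RC (s₁ * s₂) H H') ≤ 1 := by
  classical
  have h0 : ∀ f ∈ RC (s₁ * s₂) H H', ∀ x, f (x * s₁) = -f x ∧ f (x * s₂) = -f x ∧
      f (x * s₃) = -f x ∧ f (x * s₄) = -f x := by
    intro f hf
    obtain ⟨h2, h3⟩ := etale (s₁ * s₂) (s₂ * s₃) s₂ H H' hμ f hf
    have ha : ∀ x, f (x * (s₁ * s₂)) = f x := hf.1
    have hb : ∀ x, f (x * (s₂ * s₃)) = f x := fun x => h3 x _ (Subgroup.mem_zpowers _)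
    have e1 : ∀ x, f (x * s₁) = -f x := by
      intro x
      have h4 := ha x
      rw [← mul_assoc, h2] at h4
      rw [← h4, neg_neg]
    have e2 : ∀ x, f (x * s₂⁻¹) = -f x := by
      intro x
      have h4 := h2 (x * s₂⁻¹)
      rw [inv_mul_cancel_right] at h4
      rw [h4, neg_neg]
    have e3 : ∀ x, f (x * s₃) = -f x := by
      intro x
      have h4 := hb (x * s₂⁻¹)
      rw [← mul_assoc, inv_mul_cancel_right, e2] at h4
      exact h4
    have e4 : ∀ x, f (x * s₄) = -f x := by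
      intro x
      have h5 : x = x * s₄ * (s₁ * s₂ * s₃) := by
        have h6 : s₄ * (s₁ * s₂ * s₃) = 1 := by
          have h7 : s₁ * s₂ * s₃ = s₄⁻¹ := eq_inv_of_mul_eq_one_left hp
          rw [h7, mul_inv_cancel]
        rw [mul_assoc x, h6, mul_one]
      have h6 : f x = -f (x * s₄) := by
        conv_lhs => rw [h5]
        rw [← mul_assoc, e3, ha]
      rw [h6, neg_neg]
    exact fun x => ⟨e1 x, h2 x, e3 x, e4 x⟩
  refine ⟨h0, ?_⟩
  -- a function of `RC` with `f 1 = 0` vanishes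
  have h1 : ∀ f ∈ RC (s₁ * s₂) H H', f 1 = 0 → f = 0 := by
    intro f hf h10
    have hT : (⊤ : Subgroup G) ≤
        { carrier := {g | (∀ y, f (y * g) = f y) ∨ ∀ y, f (y * g) = -f y}
          mul_mem' := by
            rintro g k (hg | hg) (hk | hk)
            · exact Or.inl fun y => by rw [← mul_assoc, hk, hg]
            · exact Or.inr fun y => by rw [← mul_assoc, hk, hg]
            · exact Or.inr fun y => by rw [← mul_assoc, hk, hg]
            · exact Or.inl fun y => by rw [← mul_assoc, hk, hg, neg_neg]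
          one_mem' := Or.inl fun y => by rw [mul_one]
          inv_mem' := by
            rintro g (hg | hg)
            · refine Or.inl fun y => ?_
              have h2 := hg (y * g⁻¹)
              rw [inv_mul_cancel_right] at h2
              exact h2.symm
            · refine Or.inr fun y => ?_
              have h2 := hg (y * g⁻¹)
              rw [inv_mul_cancel_right] at h2
              rw [h2, neg_neg] } := by
      rw [← hg, Subgroup.closure_le]
      rintro g (rfl | rfl | rfl | rfl)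
      · exact Or.inr fun y => (h0 f hf y).1
      · exact Or.inr fun y => (h0 f hf y).2.1
      · exact Or.inr fun y => (h0 f hf y).2.2.1
      · exact Or.inr fun y => (h0 f hf y).2.2.2
    funext x
    have hx := hT (Subgroup.mem_top x)
    rcases hx with hx | hx
    · have h2 := hx 1
      rw [one_mul, h10] at h2
      exact h2
    · have h2 := hx 1
      rw [one_mul, h10, neg_zero] at h2
      exact h2
  by_cases hR : ∃ f : RC (s₁ * s₂) H H', f ≠ 0
  · obtain ⟨f, hf⟩ := hR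
    have hf1 : (f : G → ℂ) 1 ≠ 0 := by
      intro h2
      exact hf (Subtype.ext (h1 f f.2 h2))
    refine finrank_le_one f fun k => ⟨(k : G → ℂ) 1 / (f : G → ℂ) 1, ?_⟩
    have h2 := h1 (((k : G → ℂ) 1 / (f : G → ℂ) 1) • (f : G → ℂ) - (k : G → ℂ))
      (Submodule.sub_mem _ (Submodule.smul_mem _ _ f.2) k.2) (by
        show (k : G → ℂ) 1 / (f : G → ℂ) 1 * (f : G → ℂ) 1 - (k : G → ℂ) 1 = 0
        rw [div_mul_cancel₀ _ hf1, sub_self])
    exact Subtype.ext (sub_eq_zero.1 h2)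
  · push Not at hR
    refine finrank_le_one 0 fun k => ⟨0, ?_⟩
    rw [hR k, smul_zero]

/-- numerical form -/
theorem etale_card (s₁ s₂ s₃ s₄ : G) (hp : s₁ * s₂ * s₃ * s₄ = 1)
    (hg : Subgroup.closure {s₁, s₂, s₃, s₄} = ⊤) (H H' : Subgroup G)
    (hμ : ∀ f ∈ RC (s₁ * s₂) H H', ∀ x, wall (s₁ * s₂) (s₂ * s₃) s₂ f x =
      (4 * orderOf (s₁ * s₂) * orderOf (s₂ * s₃) : ℂ) * f x) :
    (Nat.card G : ℝ) / orderOf (s₁ * s₂) - (Nat.card G : ℝ) / Nat.card H -
      (Nat.card G : ℝ) / Nat.card H' ≤ 1 := by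
  have h1 := (etale_main s₁ s₂ s₃ s₄ hp hg H H' hμ).2
  have h2 := dim_RC (s₁ * s₂) H H'
  have h3 : (finrank ℂ (RC (s₁ * s₂) H H') : ℝ) ≤ 1 := by exact_mod_cast h1
  linarith

end Pool.Agent.H52.WP
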