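import Pool.Agent.H52.WP.ShE

set_option autoImplicit false

/-!
PROJECT UNE (MP_bf82d2_ag): covers of elliptic curves with one branch point, only the quaternion group.
-/

namespace Pool.Agent.H52.WP

open Finset Module

variable {G : Type} [Group G] [Fintype G]

open Classical in
/-- the boundary map of the dual graph -/
noncomputable def DD (x y : G) : (G ⧸ Subgroup.zpowers x → ℂ) →ₗ[ℂ]
    (G ⧸ Subgroup.closure {x, y * x * y⁻¹} → ℂ) where
  toFun φ q := ∑ h : Subgroup.closure {x, y * x * y⁻¹}, φ (QuotientGroup.mk (q.out * h)) -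
    ∑ h : Subgroup.closure {x, y * x * y⁻¹}, φ (QuotientGroup.mk (q.out * h * y))
  map_add' := by
    intro a b
    funext q
    simp only [Pi.add_apply, sum_add_distrib]
    ring
  map_smul' := by
    intro a b
    funext q
    simp only [Pi.smul_apply, smul_eq_mul, RingHom.id_apply, ← mul_sum, mul_sub]

open Classical in
theorem DD_mk (x y : G) (φ : G ⧸ Subgroup.zpowers x → ℂ) (g : G) :
    DD x y φ (QuotientGroup.mk g) =
      ∑ h : Subgroup.closure {x, y * x * y⁻¹}, φ (QuotientGroup.mk (g * h)) -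
      ∑ h : Subgroup.closure {x, y * x * y⁻¹}, φ (QuotientGroup.mk (g * h * y)) := by
  obtain ⟨k, hk⟩ := QuotientGroup.mk_out_eq_mul (Subgroup.closure {x, y * x * y⁻¹}) g
  show ∑ h : Subgroup.closure {x, y * x * y⁻¹}, φ (QuotientGroup.mk
      ((QuotientGroup.mk g : G ⧸ Subgroup.closure {x, y * x * y⁻¹}).out * h)) -
    ∑ h : Subgroup.closure {x, y * x * y⁻¹}, φ (QuotientGroup.mk
      ((QuotientGroup.mk g : G ⧸ Subgroup.closure {x, y * x * y⁻¹}).out * h * y)) = _
  rw [hk]
  congr 1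
  · refine Fintype.sum_equiv (Equiv.mulLeft k) _ _ fun h => ?_
    simp only [Equiv.coe_mulLeft, Subgroup.coe_mul, mul_assoc]
  · refine Fintype.sum_equiv (Equiv.mulLeft k) _ _ fun h => ?_
    simp only [Equiv.coe_mulLeft, Subgroup.coe_mul, mul_assoc]

theorem DD_sum (x y : G) (φ : G ⧸ Subgroup.zpowers x → ℂ) :
    ∑ g : G, DD x y φ (QuotientGroup.mk g) = 0 := by
  classical
  have h1 : ∀ k : G, ∑ g : G, φ (QuotientGroup.mk (g * k)) = ∑ g : G, φ (QuotientGroup.mk g) :=
    fun k => Fintype.sum_equiv (Equiv.mulRight k) _ _ fun g => rfl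
  rw [sum_congr rfl fun g _ => DD_mk x y φ g, sum_sub_distrib, sum_comm,
    sum_comm (f := fun (g : G) (h : Subgroup.closure {x, y * x * y⁻¹}) =>
      φ (QuotientGroup.mk (g * h * y)))]
  rw [sum_congr rfl fun (h : Subgroup.closure {x, y * x * y⁻¹}) _ => h1 h,
    sum_congr rfl fun (h : Subgroup.closure {x, y * x * y⁻¹}) _ =>
      (by simpa only [mul_assoc] using h1 (h * y) :
        ∑ g : G, φ (QuotientGroup.mk (g * h * y)) = ∑ g : G, φ (QuotientGroup.mk g)), sub_self]

/-- if the vanishing cycles of `x` are the constants then `⟨x⟩` is normal -/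
theorem norm_x (x y : G) (h1 : ∀ f ∈ HE x y, ∀ g, f g = f 1) :
    y * x * y⁻¹ ∈ Subgroup.zpowers x := by
  classical
  set H := Subgroup.closure {x, y * x * y⁻¹} with hH
  have hle : Subgroup.zpowers x ≤ H := by
    rw [Subgroup.zpowers_le]
    exact Subgroup.subset_closure (by simp)
  have h2 : LinearMap.range (DD x y) ≠ ⊤ := by
    intro h3
    rw [LinearMap.range_eq_top] at h3
    obtain ⟨φ, hφ⟩ := h3 (fun _ => 1)
    have h4 := DD_sum x y φ
    rw [hφ] at h4
    simp at h4
  have h3 : finrank ℂ (LinearMap.range (DD x y)) < finrank ℂ (G ⧸ H → ℂ) := Submodule.finrank_lt h2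
  have h4 := LinearMap.finrank_range_add_finrank_ker (DD x y)
  have h5 : finrank ℂ (LinearMap.ker (DD x y)) ≤ 1 := by
    have h6 : (fun _ => 1 : G ⧸ Subgroup.zpowers x → ℂ) ∈ LinearMap.ker (DD x y) := by
      rw [LinearMap.mem_ker]
      funext q
      obtain ⟨g, rfl⟩ := QuotientGroup.mk_surjective q
      rw [DD_mk]
      simp
    refine finrank_le_one ⟨_, h6⟩ fun φ => ⟨(φ : G ⧸ Subgroup.zpowers x → ℂ) (QuotientGroup.mk 1), ?_⟩
    apply Subtype.ext
    funext q
    obtain ⟨g, rfl⟩ := QuotientGroup.mk_surjective q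
    have h7 : (fun g : G => (φ : G ⧸ Subgroup.zpowers x → ℂ) (QuotientGroup.mk g)) ∈ HE x y := by
      refine ⟨fun g => ?_, fun g => ?_⟩
      · show (φ : G ⧸ Subgroup.zpowers x → ℂ) (QuotientGroup.mk (g * x)) =
          (φ : G ⧸ Subgroup.zpowers x → ℂ) (QuotientGroup.mk g)
        rw [QuotientGroup.mk_mul_of_mem g (Subgroup.mem_zpowers x)]
      · have h8 := φ.2
        rw [LinearMap.mem_ker] at h8
        have h9 := congrFun h8 (QuotientGroup.mk g)
        rw [DD_mk] at h9
        simpa using sub_eq_zero.1 h9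
    have h8 := h1 _ h7 g
    show (φ : G ⧸ Subgroup.zpowers x → ℂ) (QuotientGroup.mk 1) * 1 =
      (φ : G ⧸ Subgroup.zpowers x → ℂ) (QuotientGroup.mk g)
    rw [mul_one]
    exact h8.symm
  rw [finrank_fintype_fun_eq_card] at h3 h4
  have h6 : Fintype.card (G ⧸ Subgroup.zpowers x) ≤ Fintype.card (G ⧸ H) := by omega
  have h7 := Subgroup.card_eq_card_quotient_mul_card_subgroup (Subgroup.zpowers x)
  have h8 := Subgroup.card_eq_card_quotient_mul_card_subgroup H
  rw [Nat.card_eq_fintype_card (α := G ⧸ Subgroup.zpowers x)] at h7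
  rw [Nat.card_eq_fintype_card (α := G ⧸ H)] at h8
  have h9 : Nat.card H ≤ Nat.card (Subgroup.zpowers x) := by
    by_contra h10
    push Not at h10
    have h11 : 0 < Fintype.card (G ⧸ Subgroup.zpowers x) := Fintype.card_pos
    have h12 : Fintype.card (G ⧸ Subgroup.zpowers x) * Nat.card (Subgroup.zpowers x) <
        Fintype.card (G ⧸ H) * Nat.card H :=
      lt_of_lt_of_le (Nat.mul_lt_mul_of_pos_left h10 h11) (Nat.mul_le_mul_right _ h6)
    omega
  rw [Subgroup.eq_of_le_of_card_ge hle h9]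
  exact Subgroup.subset_closure (by simp)

end Pool.Agent.H52.WP
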