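import Pool.Agent.H52.WP.Qe

set_option autoImplicit false

/-!
PROJECT UNE (MP_bf82d2_ag): covers of elliptic curves with one branch point, only the quaternion group (group theory).
-/

namespace Pool.Agent.H52.WP

open Finset Module

variable {G : Type} [Group G] [Fintype G]

/-- `c = [x, y]` in `⟨x⟩`, central, of order `m`: then `m²` divides `|x|`, `|G| = |x| m v`, `c = x ^ (m b)`. -/
theorem half (x y c : G) (hg : Subgroup.closure {x, y} = ⊤) (hxy : x * y = c * (y * x))
    (hcx : c ∈ Subgroup.zpowers x) (hcy : c * y = y * c) :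
    orderOf c * orderOf c ∣ orderOf x ∧ (∃ v, Nat.card G = orderOf x * (orderOf c * v)) ∧
      ∃ b, x ^ (orderOf c * b) = c := by
  classical
  have hcx' : c * x = x * c := by
    obtain ⟨i, rfl⟩ := hcx
    exact ((Commute.refl x).zpow_left i).eq
  have hpow : ∀ k : ℕ, x ^ k * y = c ^ k * (y * x ^ k) := by
    intro k
    induction k with
    | zero => simp
    | succ k ih =>
      have h1 : Commute (c ^ k) x := (show Commute c x from hcx').pow_left k
      calc x ^ (k + 1) * y = x * (x ^ k * y) := by rw [pow_succ', mul_assoc]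
        _ = x * (c ^ k * (y * x ^ k)) := by rw [ih]
        _ = c ^ k * (x * y) * x ^ k := by
            rw [← mul_assoc x, ← h1.eq]
            group
        _ = c ^ k * (c * (y * x)) * x ^ k := by rw [hxy]
        _ = c ^ (k + 1) * (y * x ^ (k + 1)) := by
            rw [pow_succ c, pow_succ' x]
            group
  obtain ⟨a, ha⟩ := ((isOfFinOrder_of_finite x).mem_powers_iff_mem_zpowers (y := c)).2 hcx
  simp only at ha
  have hma : orderOf c ∣ a := by
    apply orderOf_dvd_of_pow_eq_one
    have h1 := hpow a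
    rw [ha, hcy] at h1
    have h2 : 1 * (y * c) = c ^ a * (y * c) := by rw [one_mul]; exact h1
    exact (mul_right_cancel h2).symm
  have hmx : orderOf c ∣ orderOf x := orderOf_dvd_of_mem_zpowers hcx
  have hdiv : orderOf c * orderOf c ∣ orderOf x := by
    have h1 : orderOf c = orderOf x / Nat.gcd (orderOf x) a := by
      rw [← ha]
      exact orderOf_pow x
    have h2 : orderOf c ∣ Nat.gcd (orderOf x) a := Nat.dvd_gcd hmx hma
    have h3 : orderOf x / Nat.gcd (orderOf x) a * Nat.gcd (orderOf x) a = orderOf x :=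
      Nat.div_mul_cancel (Nat.gcd_dvd_left _ _)
    rw [← h1] at h3
    rw [← h3]
    exact Nat.mul_dvd_mul_left _ h2
  refine ⟨hdiv, ?_, ?_⟩
  · have hn : (Subgroup.zpowers x).Normal := by
      rw [← Subgroup.normalizer_eq_top_iff, eq_top_iff, ← hg, Subgroup.closure_le]
      have hyx : ∀ i : ℤ, y * x ^ i * y⁻¹ ∈ Subgroup.zpowers x := by
        intro i
        have h1 : y * x ^ i * y⁻¹ = (c⁻¹ * x) ^ i := by
          rw [← conj_zpow]
          congr 1
          rw [eq_inv_mul_iff_mul_eq, ← mul_assoc, ← hxy, mul_inv_cancel_right]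
        rw [h1]
        exact Subgroup.zpow_mem _ (Subgroup.mul_mem _ (Subgroup.inv_mem _ hcx) (Subgroup.mem_zpowers x)) i
      have hyx' : ∀ i : ℤ, y⁻¹ * x ^ i * y ∈ Subgroup.zpowers x := by
        intro i
        have h1 : y⁻¹ * x ^ i * y = (c * x) ^ i := by
          have h2 : y⁻¹ * x * y = c * x := by
            rw [mul_assoc, hxy, inv_mul_eq_iff_eq_mul, ← mul_assoc, hcy, mul_assoc]
          have h3 := conj_zpow (i := i) (a := y⁻¹) (b := x)
          rw [inv_inv] at h3
          rw [← h3, h2]
        rw [h1]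
        exact Subgroup.zpow_mem _ (Subgroup.mul_mem _ hcx (Subgroup.mem_zpowers x)) i
      rintro z (rfl | rfl)
      · exact Subgroup.le_normalizer (Subgroup.mem_zpowers z)
      · show z ∈ Subgroup.normalizer _
        rw [Subgroup.mem_normalizer_iff]
        intro h
        constructor
        · rintro ⟨i, rfl⟩
          exact hyx i
        · rintro ⟨i, hi⟩
          have h1 := hyx' i
          simp only at hi
          rw [hi] at h1
          simpa [mul_assoc] using h1
    set k := orderOf (QuotientGroup.mk y : G ⧸ Subgroup.zpowers x) with hk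
    have h1 : Nat.card (G ⧸ Subgroup.zpowers x) = k := by
      rw [hk, ← Nat.card_zpowers]
      have h2 : Subgroup.zpowers (QuotientGroup.mk y : G ⧸ Subgroup.zpowers x) = ⊤ := by
        have h3 : Subgroup.map (QuotientGroup.mk' (Subgroup.zpowers x)) (Subgroup.closure {x, y}) = ⊤ := by
          rw [hg]
          exact Subgroup.map_top_of_surjective _ (QuotientGroup.mk'_surjective _)
        rw [MonoidHom.map_closure] at h3
        rw [eq_top_iff, ← h3, Subgroup.closure_le]
        rintro z ⟨w, (rfl | rfl), rfl⟩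
        · have h4 : QuotientGroup.mk' (Subgroup.zpowers w) w = 1 := by
            rw [QuotientGroup.mk'_apply, QuotientGroup.eq_one_iff]
            exact Subgroup.mem_zpowers w
          rw [h4]
          exact Subgroup.one_mem _
        · exact Subgroup.mem_zpowers _
      rw [h2]
      exact (Nat.card_congr Subgroup.topEquiv.toEquiv).symm
    have h2 : orderOf c ∣ k := by
      have h3 : (QuotientGroup.mk (y ^ k) : G ⧸ Subgroup.zpowers x) = 1 := by
        rw [QuotientGroup.mk_pow, hk, pow_orderOf_eq_one]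
      rw [QuotientGroup.eq_one_iff] at h3
      obtain ⟨i, hi⟩ := h3
      simp only at hi
      have h4 : Commute x (y ^ k) := by
        rw [← hi]
        exact (Commute.refl x).zpow_right i
      have h5 : ∀ j : ℕ, x * y ^ j = c ^ j * (y ^ j * x) := by
        intro j
        induction j with
        | zero => simp
        | succ j ih =>
          have h6 : Commute (y ^ j) c := (show Commute c y from hcy).symm.pow_left j
          calc x * y ^ (j + 1) = x * y ^ j * y := by rw [pow_succ, mul_assoc]
            _ = c ^ j * (y ^ j * (x * y)) := by rw [ih]; group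
            _ = c ^ j * (y ^ j * c * (y * x)) := by rw [hxy]; group
            _ = c ^ (j + 1) * (y ^ (j + 1) * x) := by
                rw [h6.eq, pow_succ c, pow_succ y]
                group
      apply orderOf_dvd_of_pow_eq_one
      have h6 := h5 k
      rw [← h4.eq] at h6
      have h7 : 1 * (x * y ^ k) = c ^ k * (x * y ^ k) := by rw [one_mul]; exact h6
      exact (mul_right_cancel h7).symm
    obtain ⟨v, hv⟩ := h2
    refine ⟨v, ?_⟩
    rw [← hv, Subgroup.card_eq_card_quotient_mul_card_subgroup (Subgroup.zpowers x), h1,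
      Nat.card_zpowers, mul_comm]
  · obtain ⟨b, rfl⟩ := hma
    exact ⟨b, ha⟩

theorem sq_of {x c : G} (hx : orderOf x = 4) (hc : orderOf c = 2) {b : ℕ}
    (hb : x ^ (orderOf c * b) = c) : x ^ 2 = c := by
  have h0 : x ^ 4 = 1 := by
    rw [← hx]
    exact pow_orderOf_eq_one x
  have h1 : (x ^ 2) ^ 2 = 1 := by
    rw [← pow_mul]
    exact h0
  rw [hc, pow_mul] at hb
  rcases Nat.even_or_odd' b with ⟨k, hk | hk⟩
  · exfalso
    rw [hk, pow_mul, h1, one_pow] at hb
    rw [← hb, orderOf_one] at hc
    omega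
  · rw [hk, pow_add, pow_mul, h1, one_pow, one_mul, pow_one] at hb
    exact hb

/-- The conditions of a Shimura curve for covers of elliptic curves with one branch point imply that the group is the
quaternion group of order `8`. -/
theorem quat (x y : G) (hg : Subgroup.closure {x, y} = ⊤) (hc : x * y ≠ y * x)
    (h1 : y * x * y⁻¹ ∈ Subgroup.zpowers x) (h2 : x⁻¹ * y * x ∈ Subgroup.zpowers y)
    (hN : (Nat.card G : ℝ) * (1 - 1 / (orderOf (x * y * x⁻¹ * y⁻¹) : ℝ) ^ 2) < 12) :
    Nat.card G = 8 ∧ x ^ 2 = y ^ 2 ∧ x ^ 2 = x * y * x⁻¹ * y⁻¹ := by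
  classical
  set c := x * y * x⁻¹ * y⁻¹ with hcdef
  have hxy : x * y = c * (y * x) := by
    rw [hcdef]
    group
  have hyx : y * x = c⁻¹ * (x * y) := by
    rw [hxy]
    group
  have hc1 : c ≠ 1 := by
    intro h3
    rw [h3, one_mul] at hxy
    exact hc hxy
  have hcx : c ∈ Subgroup.zpowers x := by
    have h3 : c = x * (y * x * y⁻¹)⁻¹ := by
      rw [hcdef]
      group
    rw [h3]
    exact Subgroup.mul_mem _ (Subgroup.mem_zpowers x) (Subgroup.inv_mem _ h1)
  have hcy : c ∈ Subgroup.zpowers y := by
    have h3 : (Subgroup.zpowers y).map (MulAut.conj x⁻¹).toMonoidHom = Subgroup.zpowers y := by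
      apply Subgroup.eq_of_le_of_card_ge
      · rw [MonoidHom.map_zpowers, Subgroup.zpowers_le]
        simpa using h2
      · exact (Nat.card_congr ((Subgroup.zpowers y).equivMapOfInjective _
          (MulAut.conj x⁻¹).injective).toEquiv).le
    have h4 : y ∈ (Subgroup.zpowers y).map (MulAut.conj x⁻¹).toMonoidHom := by
      rw [h3]
      exact Subgroup.mem_zpowers y
    obtain ⟨k, hk, hk'⟩ := h4
    have h5 : c = k * y⁻¹ := by
      have h6 : x⁻¹ * k * x = y := by simpa using hk'
      rw [hcdef]
      rw [mul_left_inj]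
      conv_lhs => rw [← h6]
      group
    rw [h5]
    exact Subgroup.mul_mem _ hk (Subgroup.inv_mem _ (Subgroup.mem_zpowers y))
  have hcy' : c * y = y * c := by
    obtain ⟨i, hi⟩ := hcy
    simp only at hi
    rw [← hi]
    exact ((Commute.refl y).zpow_left i).eq
  have hcx' : c * x = x * c := by
    obtain ⟨i, hi⟩ := hcx
    simp only at hi
    rw [← hi]
    exact ((Commute.refl x).zpow_left i).eq
  obtain ⟨⟨u, hu⟩, ⟨v, hv⟩, b, hb⟩ := half x y c hg hxy hcx hcy'
  obtain ⟨⟨u', hu'⟩, ⟨v', hv'⟩, b', hb'⟩ := half y x c⁻¹ (by rw [Set.pair_comm]; exact hg) hyx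
    (Subgroup.inv_mem _ hcy) (show Commute c⁻¹ x from (show Commute c x from hcx').inv_left)
  have hinv : orderOf c⁻¹ = orderOf c := orderOf_inv c
  rw [hinv] at hu' hv' hb'
  have hm2 : 2 ≤ orderOf c := by
    have h3 : orderOf c ≠ 1 := by
      rw [Ne, orderOf_eq_one_iff]
      exact hc1
    have h4 := orderOf_pos c
    omega
  have hpos : 0 < Nat.card G := Nat.card_pos
  have huv : Nat.card G = orderOf c * orderOf c * orderOf c * (u * v) := by
    rw [hv, hu]
    ring
  have huv' : Nat.card G = orderOf c * orderOf c * orderOf c * (u' * v') := by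
    rw [hv', hu']
    ring
  have h3 : 1 ≤ u * v := by
    rcases Nat.eq_zero_or_pos (u * v) with h4 | h4
    · rw [h4, mul_zero] at huv
      omega
    · exact h4
  have h3' : (1 : ℝ) ≤ (u * v : ℕ) := by exact_mod_cast h3
  have hm2' : (2 : ℝ) ≤ orderOf c := by exact_mod_cast hm2
  have hcard : (Nat.card G : ℝ) = orderOf c * orderOf c * orderOf c * (u * v : ℕ) := by
    rw [huv]
    push_cast
    ring
  have h4 : (Nat.card G : ℝ) * (1 - 1 / (orderOf c : ℝ) ^ 2) =
      (orderOf c * (orderOf c * orderOf c - 1)) * (u * v : ℕ) := by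
    rw [hcard]
    have h5 : (orderOf c : ℝ) ≠ 0 := by positivity
    field_simp
  rw [h4] at hN
  have hm : orderOf c = 2 := by
    by_contra h5
    have h6 : 3 ≤ orderOf c := by omega
    have h7 : (3 : ℝ) ≤ orderOf c := by exact_mod_cast h6
    have h8 : (24 : ℝ) ≤ orderOf c * (orderOf c * orderOf c - 1) := by nlinarith
    nlinarith
  rw [hm] at hN huv huv' hu hu'
  have h5 : u * v < 2 := by
    by_contra h6
    push Not at h6
    have h7 : (2 : ℝ) ≤ (u * v : ℕ) := by exact_mod_cast h6
    norm_num at hN h7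
    linarith
  have h6 : u * v = 1 := by omega
  have h7 : u' * v' = 1 := by
    rw [h6] at huv
    omega
  have hu1 : u = 1 := Nat.eq_one_of_mul_eq_one_right h6
  have hu1' : u' = 1 := Nat.eq_one_of_mul_eq_one_right h7
  have hx4 : orderOf x = 4 := by rw [hu, hu1]
  have hy4 : orderOf y = 4 := by rw [hu', hu1']
  have h8 : x ^ 2 = c := sq_of hx4 hm hb
  have h9 : y ^ 2 = c⁻¹ := sq_of hy4 (by rw [hinv]; exact hm) (by rw [hinv]; exact hb')
  have h10 : c⁻¹ = c := by
    rw [inv_eq_iff_mul_eq_one, ← pow_two, ← hm]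
    exact pow_orderOf_eq_one c
  refine ⟨by rw [huv, h6], ?_, h8⟩
  rw [h8, h9, h10]

/-- One branch point on an elliptic curve: only `Q_8`. -/
theorem ShimE.quat {x y : G} (h : ShimE x y) :
    Nat.card G = 8 ∧ x ^ 2 = y ^ 2 ∧ x ^ 2 = x * y * x⁻¹ * y⁻¹ := by
  have h1 := norm_x x y h.const_x
  have h2 := norm_x y x⁻¹ h.const_y
  rw [inv_inv] at h2
  exact Pool.Agent.H52.WP.quat x y h.gen h.brn h1 h2 h.noether

end Pool.Agent.H52.WP
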